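import Pool.Agent.Helper14.TT.StL

/-!
# Project TT, module X7A: the twisted path for `l = 7` as a sum of 26 plane values
-/

set_option autoImplicit false

namespace Pool.Agent.Helper52.TT

open Pool.Agent.Helper14.TT Pool.Agent.Helper14.CV

private theorem unit_odd (r : ℕ) (u : ℤ) (hu : Odd u) : IsUnit ((u : ℤ) : ZMod (2 ^ r)) := by
  rw [ZMod.coe_int_isUnit_iff_isCoprime]
  push_cast
  apply IsCoprime.pow_left
  obtain ⟨k, hk⟩ := hu
  exact ⟨-k, 1, by rw [hk]; ring⟩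

/-- The value at a point of the plane. -/
private theorem pt (hEdg : StEdg) {r s : ℕ} {G : ℤ → ℤ → ZMod 2} (hG : Sym (r + 1) (s + 1) G)
    (j n : ℤ) (hn : ((7 * n + j : ℤ) : ZMod (2 ^ r)) = 0) (a b c d u u' v v' : ℤ)
    (hdet : a * d - 4 * b * c = 1) (hu' : Odd u') (hv' : Odd v')
    (h1 : u * (7 * a - 4 * j * c) = (7 * b - j * d) * u') (h2 : v * d = c * v') :
    edgeF 1 1 0 0 1 G ((u : ZMod (2 ^ r)) * (u' : ZMod (2 ^ r))⁻¹)
      ((v : ZMod (2 ^ s)) * (v' : ZMod (2 ^ s))⁻¹) =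
      G (a + 4 * n * c) (2 * c) - G (2 * b + 2 * n * d) d := by
  have hU := unit_odd r u' hu'
  have hV := unit_odd s v' hv'
  have h7 := unit_odd r 7 (by decide)
  have iU : ((u' : ℤ) : ZMod (2 ^ r))⁻¹ * ((u' : ℤ) : ZMod (2 ^ r)) = 1 := ZMod.inv_mul_of_unit _ hU
  have iV : ((v' : ℤ) : ZMod (2 ^ s))⁻¹ * ((v' : ℤ) : ZMod (2 ^ s)) = 1 := ZMod.inv_mul_of_unit _ hV
  have e1 : (u : ZMod (2 ^ r)) * (7 * a - 4 * j * c) = (7 * b - j * d) * u' := by
    exact_mod_cast congrArg (Int.cast : ℤ → ZMod (2 ^ r)) h1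
  have e2 : (v : ZMod (2 ^ s)) * d = c * v' := by
    exact_mod_cast congrArg (Int.cast : ℤ → ZMod (2 ^ s)) h2
  have en : (7 : ZMod (2 ^ r)) * n + j = 0 := by
    have := hn
    push_cast at this
    exact this
  have P : Pl 1 (a + 4 * n * c) (b + n * d) c d ((u : ZMod (2 ^ r)) * (u' : ZMod (2 ^ r))⁻¹)
      ((v : ZMod (2 ^ s)) * (v' : ZMod (2 ^ s))⁻¹) := by
    refine ⟨?_, ?_, ?_⟩
    · linear_combination hdet
    · push_cast
      have h7' : IsUnit (7 : ZMod (2 ^ r)) := by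
        have := h7
        push_cast at this
        exact this
      apply h7'.mul_left_cancel
      linear_combination ((d : ZMod (2 ^ r)) - 4 * (u : ZMod (2 ^ r)) * (u' : ZMod (2 ^ r))⁻¹ * c) * en -
        (u' : ZMod (2 ^ r))⁻¹ * e1 - (7 * (b : ZMod (2 ^ r)) - j * d) * iU
    · linear_combination (-(v' : ZMod (2 ^ s))⁻¹) * e2 - (c : ZMod (2 ^ s)) * iV
  have h := hEdg (ZMod 2) _ 1 r s G hG 1 0 0 1 (by norm_num) (by norm_num) _ _ _ _ _ _ P
  rw [h]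
  congr 2 <;> ring

private theorem hom (G : ℤ → ℤ → ZMod 2) (hG : Homog G) (p q p' q' : ℤ) (hq : q ≠ 0)
    (hp' : p' = -p) (hq' : q' = -q) : G p' q' = G p q := by
  have h := hG (-1) p q (by norm_num) (Or.inr hq)
  rw [← h]
  congr 1
  · rw [hp']; ring
  · rw [hq']; ring

/-- The part of `S7` on the path with the parameter `j`. -/
private noncomputable def V {r s : ℕ} (F : Fn (2 ^ r) (2 ^ s)) (u u' v v' : ℤ) : ZMod 2 :=
  F ((u : ZMod (2 ^ r)) * (u' : ZMod (2 ^ r))⁻¹) ((v : ZMod (2 ^ s)) * (v' : ZMod (2 ^ s))⁻¹)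

private theorem two (a : ZMod 2) : a + a = 0 := CharTwo.add_self_eq_zero a

private theorem cast0 (r : ℕ) (j n a : ℤ) (hn : 7 * n + j = 2 ^ r * a) :
    ((7 * n + j : ℤ) : ZMod (2 ^ r)) = 0 := by
  rw [hn]
  push_cast
  have : (2 : ZMod (2 ^ r)) ^ r = 0 := by
    have h := ZMod.natCast_self (2 ^ r)
    push_cast at h
    exact h
  rw [this, zero_mul]

section

variable {r s : ℕ} {G : ℤ → ℤ → ZMod 2} {F1 : Fn (2 ^ r) (2 ^ s)}

private theorem path1 (hEdg : StEdg) (hG : Sym (r + 1) (s + 1) G)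
    (hF : ∀ x y, F1 x y = edgeF 1 1 0 0 1 G x y) (a n : ℤ) (hn : 7 * n + 1 = 2 ^ r * a) :
    G (2 ^ (r + 1) * a) 7 - G 1 0 = V F1 0 1 (-2) 7 +
      V F1 (-1) (-1) 2 1 +
      V F1 (-1) 7 0 1 := by
  have hc := cast0 r 1 n a hn
  have p1 := pt hEdg hG 1 n hc (-1) 1 (-2) 7 0 1 (-2) 7 (by norm_num) (by decide) (by decide)
    (by norm_num) (by norm_num)
  have p2 := pt hEdg hG 1 n hc 1 0 2 1 (-1) (-1) 2 1 (by norm_num) (by decide) (by decide)
    (by norm_num) (by norm_num)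
  have p3 := pt hEdg hG 1 n hc 1 0 0 1 (-1) 7 0 1 (by norm_num) (by decide) (by decide)
    (by norm_num) (by norm_num)
  unfold V
  rw [hF, hF, hF, p1, p2, p3]
  have q1 : G (-1 + 4 * n * (-2)) (2 * (-2)) = G (1 + 8 * n) 4 :=
    hom G hG.1 _ _ _ _ (by norm_num) (by ring) (by norm_num)
  have q2 : G (2 * 1 + 2 * n * 7) 7 = G (2 ^ (r + 1) * a) 7 := by
    congr 1
    linear_combination 2 * hn
  have q3 : G (1 + 4 * n * 2) (2 * 2) = G (1 + 8 * n) 4 := by congr 1; ring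
  have q4 : G (2 * 0 + 2 * n * 1) 1 = G (0 + 2 * n) 1 := by congr 1; ring
  have q5 : G (1 + 4 * n * 0) (2 * 0) = G 1 0 := by congr 1; ring
  simp only [q1, q2, q3, q4, q5]
  linear_combination (-1) * two (G (1 + 8 * n) 4) +
    (1) * two (G (2 ^ (r + 1) * a) 7) +
    (1) * two (G (0 + 2 * n) 1) +
    (-1) * two (G 1 0)

private theorem path1n (hEdg : StEdg) (hG : Sym (r + 1) (s + 1) G)
    (hF : ∀ x y, F1 x y = edgeF 1 1 0 0 1 G x y) (a n : ℤ) (hn : 7 * n + (-1) = 2 ^ r * a) :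
    G (2 ^ (r + 1) * a) 7 - G 1 0 = V F1 0 1 2 7 +
      V F1 (-1) 1 2 (-1) +
      V F1 1 7 0 1 := by
  have hc := cast0 r (-1) n a hn
  have p1 := pt hEdg hG (-1) n hc (-1) (-1) 2 7 0 1 2 7 (by norm_num) (by decide) (by decide)
    (by norm_num) (by norm_num)
  have p2 := pt hEdg hG (-1) n hc 1 0 (-2) 1 (-1) 1 2 (-1) (by norm_num) (by decide) (by decide)
    (by norm_num) (by norm_num)
  have p3 := pt hEdg hG (-1) n hc 1 0 0 1 1 7 0 1 (by norm_num) (by decide) (by decide)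
    (by norm_num) (by norm_num)
  unfold V
  rw [hF, hF, hF, p1, p2, p3]
  have q1 : G (-1 + 4 * n * 2) (2 * 2) = G ((-1) + 8 * n) 4 := by congr 1; ring
  have q2 : G (2 * (-1) + 2 * n * 7) 7 = G (2 ^ (r + 1) * a) 7 := by
    congr 1
    linear_combination 2 * hn
  have q3 : G (1 + 4 * n * (-2)) (2 * (-2)) = G ((-1) + 8 * n) 4 :=
    hom G hG.1 _ _ _ _ (by norm_num) (by ring) (by norm_num)
  have q4 : G (2 * 0 + 2 * n * 1) 1 = G (0 + 2 * n) 1 := by congr 1; ring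
  have q5 : G (1 + 4 * n * 0) (2 * 0) = G 1 0 := by congr 1; ring
  simp only [q1, q2, q3, q4, q5]
  linear_combination (-1) * two (G ((-1) + 8 * n) 4) +
    (1) * two (G (2 ^ (r + 1) * a) 7) +
    (1) * two (G (0 + 2 * n) 1) +
    (-1) * two (G 1 0)

private theorem path2 (hEdg : StEdg) (hG : Sym (r + 1) (s + 1) G)
    (hF : ∀ x y, F1 x y = edgeF 1 1 0 0 1 G x y) (a n : ℤ) (hn : 7 * n + 2 = 2 ^ r * a) :
    G (2 ^ (r + 1) * a) 7 - G 1 0 = V F1 0 1 (-1) 7 +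
      V F1 (-2) (-1) 1 1 +
      V F1 (-2) 7 0 1 := by
  have hc := cast0 r 2 n a hn
  have p1 := pt hEdg hG 2 n hc (-1) 2 (-1) 7 0 1 (-1) 7 (by norm_num) (by decide) (by decide)
    (by norm_num) (by norm_num)
  have p2 := pt hEdg hG 2 n hc 1 0 1 1 (-2) (-1) 1 1 (by norm_num) (by decide) (by decide)
    (by norm_num) (by norm_num)
  have p3 := pt hEdg hG 2 n hc 1 0 0 1 (-2) 7 0 1 (by norm_num) (by decide) (by decide)
    (by norm_num) (by norm_num)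
  unfold V
  rw [hF, hF, hF, p1, p2, p3]
  have q1 : G (-1 + 4 * n * (-1)) (2 * (-1)) = G (1 + 4 * n) 2 :=
    hom G hG.1 _ _ _ _ (by norm_num) (by ring) (by norm_num)
  have q2 : G (2 * 2 + 2 * n * 7) 7 = G (2 ^ (r + 1) * a) 7 := by
    congr 1
    linear_combination 2 * hn
  have q3 : G (1 + 4 * n * 1) (2 * 1) = G (1 + 4 * n) 2 := by congr 1; ring
  have q4 : G (2 * 0 + 2 * n * 1) 1 = G (0 + 2 * n) 1 := by congr 1; ring
  have q5 : G (1 + 4 * n * 0) (2 * 0) = G 1 0 := by congr 1; ring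
  simp only [q1, q2, q3, q4, q5]
  linear_combination (-1) * two (G (1 + 4 * n) 2) +
    (1) * two (G (2 ^ (r + 1) * a) 7) +
    (1) * two (G (0 + 2 * n) 1) +
    (-1) * two (G 1 0)

private theorem path2n (hEdg : StEdg) (hG : Sym (r + 1) (s + 1) G)
    (hF : ∀ x y, F1 x y = edgeF 1 1 0 0 1 G x y) (a n : ℤ) (hn : 7 * n + (-2) = 2 ^ r * a) :
    G (2 ^ (r + 1) * a) 7 - G 1 0 = V F1 0 1 1 7 +
      V F1 (-2) 1 1 (-1) +
      V F1 2 7 0 1 := by
  have hc := cast0 r (-2) n a hn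
  have p1 := pt hEdg hG (-2) n hc (-1) (-2) 1 7 0 1 1 7 (by norm_num) (by decide) (by decide)
    (by norm_num) (by norm_num)
  have p2 := pt hEdg hG (-2) n hc 1 0 (-1) 1 (-2) 1 1 (-1) (by norm_num) (by decide) (by decide)
    (by norm_num) (by norm_num)
  have p3 := pt hEdg hG (-2) n hc 1 0 0 1 2 7 0 1 (by norm_num) (by decide) (by decide)
    (by norm_num) (by norm_num)
  unfold V
  rw [hF, hF, hF, p1, p2, p3]
  have q1 : G (-1 + 4 * n * 1) (2 * 1) = G ((-1) + 4 * n) 2 := by congr 1; ring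
  have q2 : G (2 * (-2) + 2 * n * 7) 7 = G (2 ^ (r + 1) * a) 7 := by
    congr 1
    linear_combination 2 * hn
  have q3 : G (1 + 4 * n * (-1)) (2 * (-1)) = G ((-1) + 4 * n) 2 :=
    hom G hG.1 _ _ _ _ (by norm_num) (by ring) (by norm_num)
  have q4 : G (2 * 0 + 2 * n * 1) 1 = G (0 + 2 * n) 1 := by congr 1; ring
  have q5 : G (1 + 4 * n * 0) (2 * 0) = G 1 0 := by congr 1; ring
  simp only [q1, q2, q3, q4, q5]
  linear_combination (-1) * two (G ((-1) + 4 * n) 2) +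
    (1) * two (G (2 ^ (r + 1) * a) 7) +
    (1) * two (G (0 + 2 * n) 1) +
    (-1) * two (G 1 0)

private theorem path3 (hEdg : StEdg) (hG : Sym (r + 1) (s + 1) G)
    (hF : ∀ x y, F1 x y = edgeF 1 1 0 0 1 G x y) (a n : ℤ) (hn : 7 * n + 3 = 2 ^ r * a) :
    G (2 ^ (r + 1) * a) 7 - G 1 0 = V F1 0 1 (-3) 7 +
      V F1 (-1) (-1) 3 5 +
      V F1 (-1) 3 (-2) 5 +
      V F1 (-2) (-3) 2 3 +
      V F1 (-2) 5 (-1) 3 +
      V F1 (-3) (-5) 1 1 +
      V F1 (-3) 7 0 1 := by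
  have hc := cast0 r 3 n a hn
  have p1 := pt hEdg hG 3 n hc (-5) 3 (-3) 7 0 1 (-3) 7 (by norm_num) (by decide) (by decide)
    (by norm_num) (by norm_num)
  have p2 := pt hEdg hG 3 n hc 5 2 3 5 (-1) (-1) 3 5 (by norm_num) (by decide) (by decide)
    (by norm_num) (by norm_num)
  have p3 := pt hEdg hG 3 n hc (-3) 2 (-2) 5 (-1) 3 (-2) 5 (by norm_num) (by decide) (by decide)
    (by norm_num) (by norm_num)
  have p4 := pt hEdg hG 3 n hc 3 1 2 3 (-2) (-3) 2 3 (by norm_num) (by decide) (by decide)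
    (by norm_num) (by norm_num)
  have p5 := pt hEdg hG 3 n hc (-1) 1 (-1) 3 (-2) 5 (-1) 3 (by norm_num) (by decide) (by decide)
    (by norm_num) (by norm_num)
  have p6 := pt hEdg hG 3 n hc 1 0 1 1 (-3) (-5) 1 1 (by norm_num) (by decide) (by decide)
    (by norm_num) (by norm_num)
  have p7 := pt hEdg hG 3 n hc 1 0 0 1 (-3) 7 0 1 (by norm_num) (by decide) (by decide)
    (by norm_num) (by norm_num)
  unfold V
  rw [hF, hF, hF, hF, hF, hF, hF, p1, p2, p3, p4, p5, p6, p7]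
  have q1 : G (-5 + 4 * n * (-3)) (2 * (-3)) = G (5 + 12 * n) 6 :=
    hom G hG.1 _ _ _ _ (by norm_num) (by ring) (by norm_num)
  have q2 : G (2 * 3 + 2 * n * 7) 7 = G (2 ^ (r + 1) * a) 7 := by
    congr 1
    linear_combination 2 * hn
  have q3 : G (5 + 4 * n * 3) (2 * 3) = G (5 + 12 * n) 6 := by congr 1; ring
  have q4 : G (2 * 2 + 2 * n * 5) 5 = G (4 + 10 * n) 5 := by congr 1; ring
  have q5 : G (-3 + 4 * n * (-2)) (2 * (-2)) = G (3 + 8 * n) 4 :=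
    hom G hG.1 _ _ _ _ (by norm_num) (by ring) (by norm_num)
  have q6 : G (3 + 4 * n * 2) (2 * 2) = G (3 + 8 * n) 4 := by congr 1; ring
  have q7 : G (2 * 1 + 2 * n * 3) 3 = G (2 + 6 * n) 3 := by congr 1; ring
  have q8 : G (-1 + 4 * n * (-1)) (2 * (-1)) = G (1 + 4 * n) 2 :=
    hom G hG.1 _ _ _ _ (by norm_num) (by ring) (by norm_num)
  have q9 : G (1 + 4 * n * 1) (2 * 1) = G (1 + 4 * n) 2 := by congr 1; ring
  have q10 : G (2 * 0 + 2 * n * 1) 1 = G (0 + 2 * n) 1 := by congr 1; ring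
  have q11 : G (1 + 4 * n * 0) (2 * 0) = G 1 0 := by congr 1; ring
  simp only [q1, q2, q3, q4, q5, q6, q7, q8, q9, q10, q11]
  linear_combination (-1) * two (G (5 + 12 * n) 6) +
    (1) * two (G (2 ^ (r + 1) * a) 7) +
    (1) * two (G (4 + 10 * n) 5) +
    (-1) * two (G (3 + 8 * n) 4) +
    (1) * two (G (2 + 6 * n) 3) +
    (-1) * two (G (1 + 4 * n) 2) +
    (1) * two (G (0 + 2 * n) 1) +
    (-1) * two (G 1 0)

private theorem path3n (hEdg : StEdg) (hG : Sym (r + 1) (s + 1) G)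
    (hF : ∀ x y, F1 x y = edgeF 1 1 0 0 1 G x y) (a n : ℤ) (hn : 7 * n + (-3) = 2 ^ r * a) :
    G (2 ^ (r + 1) * a) 7 - G 1 0 = V F1 0 1 3 7 +
      V F1 (-1) 1 3 (-5) +
      V F1 1 3 2 5 +
      V F1 (-2) 3 2 (-3) +
      V F1 2 5 1 3 +
      V F1 (-3) 5 1 (-1) +
      V F1 3 7 0 1 := by
  have hc := cast0 r (-3) n a hn
  have p1 := pt hEdg hG (-3) n hc (-5) (-3) 3 7 0 1 3 7 (by norm_num) (by decide) (by decide)
    (by norm_num) (by norm_num)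
  have p2 := pt hEdg hG (-3) n hc 5 (-2) (-3) 5 (-1) 1 3 (-5) (by norm_num) (by decide) (by decide)
    (by norm_num) (by norm_num)
  have p3 := pt hEdg hG (-3) n hc (-3) (-2) 2 5 1 3 2 5 (by norm_num) (by decide) (by decide)
    (by norm_num) (by norm_num)
  have p4 := pt hEdg hG (-3) n hc 3 (-1) (-2) 3 (-2) 3 2 (-3) (by norm_num) (by decide) (by decide)
    (by norm_num) (by norm_num)
  have p5 := pt hEdg hG (-3) n hc (-1) (-1) 1 3 2 5 1 3 (by norm_num) (by decide) (by decide)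
    (by norm_num) (by norm_num)
  have p6 := pt hEdg hG (-3) n hc 1 0 (-1) 1 (-3) 5 1 (-1) (by norm_num) (by decide) (by decide)
    (by norm_num) (by norm_num)
  have p7 := pt hEdg hG (-3) n hc 1 0 0 1 3 7 0 1 (by norm_num) (by decide) (by decide)
    (by norm_num) (by norm_num)
  unfold V
  rw [hF, hF, hF, hF, hF, hF, hF, p1, p2, p3, p4, p5, p6, p7]
  have q1 : G (-5 + 4 * n * 3) (2 * 3) = G ((-5) + 12 * n) 6 := by congr 1; ring
  have q2 : G (2 * (-3) + 2 * n * 7) 7 = G (2 ^ (r + 1) * a) 7 := by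
    congr 1
    linear_combination 2 * hn
  have q3 : G (5 + 4 * n * (-3)) (2 * (-3)) = G ((-5) + 12 * n) 6 :=
    hom G hG.1 _ _ _ _ (by norm_num) (by ring) (by norm_num)
  have q4 : G (2 * (-2) + 2 * n * 5) 5 = G ((-4) + 10 * n) 5 := by congr 1; ring
  have q5 : G (-3 + 4 * n * 2) (2 * 2) = G ((-3) + 8 * n) 4 := by congr 1; ring
  have q6 : G (3 + 4 * n * (-2)) (2 * (-2)) = G ((-3) + 8 * n) 4 :=
    hom G hG.1 _ _ _ _ (by norm_num) (by ring) (by norm_num)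
  have q7 : G (2 * (-1) + 2 * n * 3) 3 = G ((-2) + 6 * n) 3 := by congr 1; ring
  have q8 : G (-1 + 4 * n * 1) (2 * 1) = G ((-1) + 4 * n) 2 := by congr 1; ring
  have q9 : G (1 + 4 * n * (-1)) (2 * (-1)) = G ((-1) + 4 * n) 2 :=
    hom G hG.1 _ _ _ _ (by norm_num) (by ring) (by norm_num)
  have q10 : G (2 * 0 + 2 * n * 1) 1 = G (0 + 2 * n) 1 := by congr 1; ring
  have q11 : G (1 + 4 * n * 0) (2 * 0) = G 1 0 := by congr 1; ring
  simp only [q1, q2, q3, q4, q5, q6, q7, q8, q9, q10, q11]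
  linear_combination (-1) * two (G ((-5) + 12 * n) 6) +
    (1) * two (G (2 ^ (r + 1) * a) 7) +
    (1) * two (G ((-4) + 10 * n) 5) +
    (-1) * two (G ((-3) + 8 * n) 4) +
    (1) * two (G ((-2) + 6 * n) 3) +
    (-1) * two (G ((-1) + 4 * n) 2) +
    (1) * two (G (0 + 2 * n) 1) +
    (-1) * two (G 1 0)

end

private theorem smul_pm (x : ZMod 2) : (-1 : ℤ) • x = x := by
  rw [neg_smul, one_smul]
  exact CharTwo.neg_eq x

theorem hX7A (hEdg : StEdg) (hPlA : StPlA) : X7A := by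
  intro r s G F1 hG hF
  have hr : ∃ k : ℤ, (2 : ℤ) ^ r = 7 * k + 1 ∨ (2 : ℤ) ^ r = 7 * k + 2 ∨ (2 : ℤ) ^ r = 7 * k + 4 := by
    clear hG hF F1
    induction r with
    | zero => exact ⟨0, Or.inl (by norm_num)⟩
    | succ r ih =>
      obtain ⟨k, h | h | h⟩ := ih
      · exact ⟨2 * k, Or.inr (Or.inl (by rw [pow_succ, h]; ring))⟩
      · exact ⟨2 * k, Or.inr (Or.inr (by rw [pow_succ, h]; ring))⟩
      · exact ⟨2 * k + 1, Or.inl (by rw [pow_succ, h]; ring)⟩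
  have e0 : eXb 7 (2 ^ (r + 1)) G =
      (G (2 ^ (r + 1) * 1) 7 - G 1 0) + (G (2 ^ (r + 1) * 2) 7 - G 1 0) +
      (G (2 ^ (r + 1) * 3) 7 - G 1 0) + (G (2 ^ (r + 1) * 4) 7 - G 1 0) +
      (G (2 ^ (r + 1) * 5) 7 - G 1 0) + (G (2 ^ (r + 1) * 6) 7 - G 1 0) := by
    unfold eXb
    have j0 : jacobiSym ((0 : ℕ) : ℤ) 7 = 0 := by norm_num
    have j1 : jacobiSym ((1 : ℕ) : ℤ) 7 = 1 := by norm_num
    have j2 : jacobiSym ((2 : ℕ) : ℤ) 7 = 1 := by norm_num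
    have j3 : jacobiSym ((3 : ℕ) : ℤ) 7 = -1 := by norm_num
    have j4 : jacobiSym ((4 : ℕ) : ℤ) 7 = 1 := by norm_num
    have j5 : jacobiSym ((5 : ℕ) : ℤ) 7 = -1 := by norm_num
    have j6 : jacobiSym ((6 : ℕ) : ℤ) 7 = -1 := by norm_num
    rw [Finset.sum_range_succ, Finset.sum_range_succ, Finset.sum_range_succ, Finset.sum_range_succ,
      Finset.sum_range_succ, Finset.sum_range_succ, Finset.sum_range_succ, Finset.sum_range_zero,
      j0, j1, j2, j3, j4, j5, j6]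
    simp only [smul_pm, one_smul, zero_smul, zero_add]
    push_cast
    rfl
  have hS : S7 F1 = (V F1 0 1 (-2) 7 + V F1 (-1) (-1) 2 1 + V F1 (-1) 7 0 1) +
      (V F1 0 1 2 7 + V F1 (-1) 1 2 (-1) + V F1 1 7 0 1) +
      (V F1 0 1 (-1) 7 + V F1 (-2) (-1) 1 1 + V F1 (-2) 7 0 1) +
      (V F1 0 1 1 7 + V F1 (-2) 1 1 (-1) + V F1 2 7 0 1) +
      (V F1 0 1 (-3) 7 + V F1 (-1) (-1) 3 5 + V F1 (-1) 3 (-2) 5 + V F1 (-2) (-3) 2 3 +
        V F1 (-2) 5 (-1) 3 + V F1 (-3) (-5) 1 1 + V F1 (-3) 7 0 1) +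
      (V F1 0 1 3 7 + V F1 (-1) 1 3 (-5) + V F1 1 3 2 5 + V F1 (-2) 3 2 (-3) +
        V F1 2 5 1 3 + V F1 (-3) 5 1 (-1) + V F1 3 7 0 1) := by
    unfold S7 P7
    simp only [List.map_cons, List.map_nil, List.sum_cons, List.sum_nil, V]
    ring
  rw [e0, hS]
  obtain ⟨k, h | h | h⟩ := hr
  · rw [path1 hEdg hG hF 1 k (by rw [h]; ring), path2 hEdg hG hF 2 (2 * k) (by rw [h]; ring),
      path3 hEdg hG hF 3 (3 * k) (by rw [h]; ring), path3n hEdg hG hF 4 (4 * k + 1) (by rw [h]; ring),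
      path2n hEdg hG hF 5 (5 * k + 1) (by rw [h]; ring), path1n hEdg hG hF 6 (6 * k + 1) (by rw [h]; ring)]
    ring
  · rw [path2 hEdg hG hF 1 k (by rw [h]; ring), path3n hEdg hG hF 2 (2 * k + 1) (by rw [h]; ring),
      path1n hEdg hG hF 3 (3 * k + 1) (by rw [h]; ring), path1 hEdg hG hF 4 (4 * k + 1) (by rw [h]; ring),
      path3 hEdg hG hF 5 (5 * k + 1) (by rw [h]; ring), path2n hEdg hG hF 6 (6 * k + 2) (by rw [h]; ring)]
    ring
  · rw [path3n hEdg hG hF 1 (k + 1) (by rw [h]; ring), path1 hEdg hG hF 2 (2 * k + 1) (by rw [h]; ring),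
      path2n hEdg hG hF 3 (3 * k + 2) (by rw [h]; ring), path2 hEdg hG hF 4 (4 * k + 2) (by rw [h]; ring),
      path1n hEdg hG hF 5 (5 * k + 3) (by rw [h]; ring), path3 hEdg hG hF 6 (6 * k + 3) (by rw [h]; ring)]
    ring

end Pool.Agent.Helper52.TT
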